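import Pool.Agent.Y546.WQ.Stm5
import Pool.Agent.Y809.WQ.LOC2

/-!
# LOC4: the norm polynomial `N (z - T y)` modulo two
-/

set_option autoImplicit false

namespace Pool.Agent.Y10.WQ

open NumberField IsDedekindDomain Polynomial
open Pool.Agent.Y546.WQ

section field

variable {L : Type} [Field L]

theorem one_add_ne (u : L) : (1 + C u * X : Polynomial L) ≠ 0 := by
  intro h
  have := congrArg (fun q => Polynomial.coeff q 0) h
  simp at this

theorem omega_cube {ω : L} (hω : ω ^ 2 + ω + 1 = 0) : ω ^ 3 = 1 := by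
  have : ω ^ 3 - 1 = (ω - 1) * (ω ^ 2 + ω + 1) := by ring
  rw [hω, mul_zero] at this
  exact sub_eq_zero.1 this

theorem compare (h2 : (2 : L) = 0) {ω c c' : L} (hω : ω ^ 2 + ω + 1 = 0) (hc : c ≠ 0)
    (hc' : c' ≠ 0) {n1 n2 : ℕ}
    (h : C c * ((1 + C ω * X) ^ n1 * (1 + C (ω ^ 2) * X) ^ n2) =
      C c' * ((1 + C (ω ^ 2) * X) ^ n1 * (1 + C ω * X) ^ n2)) : n1 = n2 ∧ c = c' := by
  have h3 := omega_cube hω
  have hω0 : ω ≠ 0 := by
    rintro rfl
    simp at h3
  have e1 : 1 + ω * ω = ω := by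
    have : 1 + ω * ω = (ω ^ 2 + ω + 1) - 2 * ω + ω := by ring
    rw [this, hω, h2]
    ring
  have e2 : 1 + ω ^ 2 * ω = 0 := by
    have : 1 + ω ^ 2 * ω = 1 + ω ^ 3 := by ring
    rw [this, h3, ← h2]
    norm_num
  have hP : ∀ n : ℕ, ((1 + C ω * X) ^ n * (1 + C (ω ^ 2) * X) ^ n : Polynomial L) ≠ 0 :=
    fun n => mul_ne_zero (pow_ne_zero _ (one_add_ne _)) (pow_ne_zero _ (one_add_ne _))
  rcases lt_trichotomy n1 n2 with hlt | heq | hgt
  · exfalso
    obtain ⟨d, rfl⟩ := Nat.exists_eq_add_of_lt hlt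
    have h4 : ((1 + C ω * X) ^ n1 * (1 + C (ω ^ 2) * X) ^ n1 : Polynomial L) *
        (C c * (1 + C (ω ^ 2) * X) ^ (d + 1)) = ((1 + C ω * X) ^ n1 * (1 + C (ω ^ 2) * X) ^ n1) *
        (C c' * (1 + C ω * X) ^ (d + 1)) := by
      rw [add_assoc, pow_add, pow_add] at h
      linear_combination h
    have h5 := congrArg (Polynomial.eval ω) (mul_left_cancel₀ (hP n1) h4)
    simp only [eval_mul, eval_C, eval_pow, eval_add, eval_one, eval_X] at h5
    rw [e1, e2, zero_pow (by omega), mul_zero] at h5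
    exact mul_ne_zero hc' (pow_ne_zero _ hω0) h5.symm
  · subst heq
    refine ⟨rfl, ?_⟩
    have h4 : ((1 + C ω * X) ^ n1 * (1 + C (ω ^ 2) * X) ^ n1 : Polynomial L) * C c =
        ((1 + C ω * X) ^ n1 * (1 + C (ω ^ 2) * X) ^ n1) * C c' := by
      linear_combination h
    exact C_injective (mul_left_cancel₀ (hP n1) h4)
  · exfalso
    obtain ⟨d, rfl⟩ := Nat.exists_eq_add_of_lt hgt
    have h4 : ((1 + C ω * X) ^ n2 * (1 + C (ω ^ 2) * X) ^ n2 : Polynomial L) *
        (C c * (1 + C ω * X) ^ (d + 1)) = ((1 + C ω * X) ^ n2 * (1 + C (ω ^ 2) * X) ^ n2) *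
        (C c' * (1 + C (ω ^ 2) * X) ^ (d + 1)) := by
      rw [add_assoc, pow_add, pow_add] at h
      linear_combination h
    have h5 := congrArg (Polynomial.eval ω) (mul_left_cancel₀ (hP n2) h4)
    simp only [eval_mul, eval_C, eval_pow, eval_add, eval_one, eval_X] at h5
    rw [e1, e2, zero_pow (by omega), mul_zero] at h5
    exact mul_ne_zero hc (pow_ne_zero _ hω0) h5

end field

theorem reflect_W (k : ℕ) :
    Polynomial.reflect (2 * k) ((1 + X + X ^ 2 : Polynomial (ZMod 2)) ^ k) =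
      (1 + X + X ^ 2) ^ k := by
  induction k with
  | zero => simp
  | succ k ih =>
    have hX : (1 + X + X ^ 2 : Polynomial (ZMod 2)).natDegree ≤ 2 := by
      compute_degree
    have hXd : ((1 + X + X ^ 2 : Polynomial (ZMod 2)) ^ k).natDegree ≤ 2 * k := by
      refine (Polynomial.natDegree_pow_le).trans ?_
      calc k * (1 + X + X ^ 2 : Polynomial (ZMod 2)).natDegree ≤ k * 2 := Nat.mul_le_mul_left _ hX
        _ = 2 * k := mul_comm k 2
    rw [pow_succ, Nat.mul_succ, Polynomial.reflect_mul _ _ hXd hX, ih]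
    congr 1
    have h0 := Polynomial.reflect_monomial (R := ZMod 2) 2 0
    have h1 := Polynomial.reflect_monomial (R := ZMod 2) 2 1
    have h2 := Polynomial.reflect_monomial (R := ZMod 2) 2 2
    rw [Polynomial.revAt_le (by norm_num), pow_zero] at h0
    rw [Polynomial.revAt_le (by norm_num), pow_one] at h1
    rw [Polynomial.revAt_le le_rfl] at h2
    rw [Polynomial.reflect_add, Polynomial.reflect_add, h0, h1, h2]
    simp
    ring

theorem reflect_all (a b k : ℕ) :
    Polynomial.reflect (a + b + 2 * k)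
      ((1 + X : Polynomial (ZMod 2)) ^ a * (1 + X + X ^ 2) ^ k) =
      X ^ b * ((1 + X) ^ a * (1 + X + X ^ 2) ^ k) := by
  have hX : (1 + X : Polynomial (ZMod 2)).natDegree ≤ 1 := by
    compute_degree
  have hXa : ((1 + X : Polynomial (ZMod 2)) ^ a).natDegree ≤ a := by
    refine (Polynomial.natDegree_pow_le).trans ?_
    calc a * (1 + X : Polynomial (ZMod 2)).natDegree ≤ a * 1 := Nat.mul_le_mul_left _ hX
      _ = a := mul_one a
  have hW : (1 + X + X ^ 2 : Polynomial (ZMod 2)).natDegree ≤ 2 := by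
    compute_degree
  have hWk : ((1 + X + X ^ 2 : Polynomial (ZMod 2)) ^ k).natDegree ≤ 2 * k := by
    refine (Polynomial.natDegree_pow_le).trans ?_
    calc k * (1 + X + X ^ 2 : Polynomial (ZMod 2)).natDegree ≤ k * 2 := Nat.mul_le_mul_left _ hW
      _ = 2 * k := mul_comm k 2
  have h1 : (1 : Polynomial (ZMod 2)).natDegree ≤ b := by simp
  have hXab : ((1 + X : Polynomial (ZMod 2)) ^ a * 1).natDegree ≤ a + b := by
    rw [mul_one]
    omega
  have e : (1 + X : Polynomial (ZMod 2)) ^ a * (1 + X + X ^ 2) ^ k =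
      ((1 + X) ^ a * 1) * (1 + X + X ^ 2) ^ k := by ring
  rw [e, Polynomial.reflect_mul _ _ hXab hWk, Polynomial.reflect_mul _ _ hXa h1,
    Pool.Agent.Y809.WQ.reflect_one_add, reflect_W]
  have h0 := Polynomial.reflect_monomial (R := ZMod 2) b 0
  rw [Polynomial.revAt_le (by omega), pow_zero, Nat.sub_zero] at h0
  rw [h0]
  ring

theorem mainLOC4 : S_LOC4 := by
  classical
  intro K N _ _ _ _ hcard Q hQ h2Q x y z hT a b ha hb B _ hB
  haveI := hQ
  set m : (K →+* N) → (𝓞 K →+* 𝓞 N) := fun τ => RingOfIntegers.mapRingHom τ with hm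
  let L := FractionRing (𝓞 N ⧸ Q)
  let g : 𝓞 N →+* L := (algebraMap (𝓞 N ⧸ Q) L).comp (Ideal.Quotient.mk Q)
  have hg : ∀ w, g w = 0 ↔ w ∈ Q := by
    intro w
    change algebraMap (𝓞 N ⧸ Q) L (Ideal.Quotient.mk Q w) = 0 ↔ _
    rw [map_eq_zero_iff _ (IsFractionRing.injective (𝓞 N ⧸ Q) L), Ideal.Quotient.eq_zero_iff_mem]
  have h20 : (2 : L) = 0 := by
    have h := (hg 2).2 h2Q
    rwa [map_ofNat] at h
  haveI : CharP L 2 := CharTwo.of_one_ne_zero_of_two_eq_zero one_ne_zero h20
  have hneg : ∀ w : L, -w = w := fun w => by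
    have : w + w = 0 := by rw [← two_mul, h20, zero_mul]
    exact neg_eq_of_add_eq_zero_left this
  have hP : ∀ τ, (Q.comap (m τ)).IsPrime := fun τ => hQ.comap _
  have hP2 : ∀ τ, (2 : 𝓞 K) ∈ Q.comap (m τ) := by
    intro τ
    rw [Ideal.mem_comap, map_ofNat]
    exact h2Q
  have hz : ∀ τ, g (m τ z) ≠ 0 := by
    intro τ h
    exact (hT _ (hP τ) (hP2 τ)).1 ((hg _).1 h)
  have hcase : ∀ τ, (m τ x ∈ Q ∧ m τ y ∉ Q ∧ g (m τ y) = g (m τ z)) ∨
      (m τ x ∉ Q ∧ m τ y ∈ Q) ∨
      (m τ x ∉ Q ∧ m τ y ∉ Q ∧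
        g (m τ z) ^ 2 + g (m τ z) * g (m τ y) + g (m τ y) ^ 2 = 0) := by
    intro τ
    rcases (hT _ (hP τ) (hP2 τ)).2 with h | h | h
    · left
      refine ⟨h.1, h.2.1, ?_⟩
      have h1 := h.2.2
      rw [Ideal.mem_comap, map_sub] at h1
      have h3 := (hg _).2 h1
      rw [map_sub] at h3
      exact (sub_eq_zero.1 h3).symm
    · right; left
      exact ⟨h.2, h.1⟩
    · right; right
      refine ⟨h.1, h.2.1, ?_⟩
      have h1 := h.2.2
      rw [Ideal.mem_comap, map_add, map_add, map_pow, map_mul, map_pow] at h1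
      have h3 := (hg _).2 h1
      rwa [map_add, map_add, map_pow, map_mul, map_pow] at h3
  -- the root of unity
  obtain ⟨ω, hω1, hω2⟩ : ∃ ω : L, (∀ τ, m τ x ∉ Q → m τ y ∉ Q →
      g (m τ y) = ω * g (m τ z) ∨ g (m τ y) = ω ^ 2 * g (m τ z)) ∧
      (ω ^ 2 + ω + 1 = 0 ∨ ∀ τ, ¬ (m τ x ∉ Q ∧ m τ y ∉ Q)) := by
    have key : ∀ τ, m τ x ∉ Q → m τ y ∉ Q →
        (g (m τ y) / g (m τ z)) ^ 2 + g (m τ y) / g (m τ z) + 1 = 0 := by
      intro τ h1 h2
      rcases hcase τ with h | h | h
      · exact absurd h.1 h1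
      · exact absurd h.2 h2
      · have h3 := hz τ
        have hi := mul_inv_cancel₀ h3
        rw [div_eq_mul_inv]
        linear_combination (g (m τ z))⁻¹ ^ 2 * h.2.2 - (g (m τ y)) * (g (m τ z))⁻¹ * hi
          - (g (m τ z) * (g (m τ z))⁻¹ + 1) * hi
    by_cases h : ∃ τ, m τ x ∉ Q ∧ m τ y ∉ Q
    · obtain ⟨τ0, h1, h2⟩ := h
      have hω := key τ0 h1 h2
      set ω := g (m τ0 y) / g (m τ0 z) with hωd
      refine ⟨ω, fun τ h3 h4 => ?_, Or.inl hω⟩
      have h5 := key τ h3 h4
      have h6 := hz τ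
      set u := g (m τ y) / g (m τ z) with hu
      have h7 : (u - ω) * (u - ω ^ 2) = 0 := by
        have := omega_cube hω
        linear_combination h5 - u * hω + this
      have h8 : g (m τ y) = u * g (m τ z) := by
        rw [hu, div_mul_cancel₀ _ h6]
      rcases mul_eq_zero.1 h7 with h9 | h9
      · left
        rw [h8, sub_eq_zero.1 h9]
      · right
        rw [h8, sub_eq_zero.1 h9]
    · push Not at h
      refine ⟨0, fun τ h1 h2 => absurd (h τ h1) h2, Or.inr fun τ h1 => h1.2 (h τ h1.1)⟩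
  set P1 : (K →+* N) → Prop := fun τ => m τ x ∉ Q ∧ m τ y ∉ Q ∧ g (m τ y) = ω * g (m τ z)
    with hP1
  set P2 : (K →+* N) → Prop := fun τ => m τ x ∉ Q ∧ m τ y ∉ Q ∧ ¬ g (m τ y) = ω * g (m τ z)
    with hP2d
  set n1 := (Finset.univ.filter P1).card with hn1
  set n2 := (Finset.univ.filter P2).card with hn2
  have ca : a = (Finset.univ.filter fun τ : K →+* N => m τ x ∈ Q).card := by
    rw [ha, Nat.card_eq_fintype_card, Fintype.card_subtype]
  have cb : b = (Finset.univ.filter fun τ : K →+* N => m τ y ∈ Q).card := by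
    rw [hb, Nat.card_eq_fintype_card, Fintype.card_subtype]
  have htot : a + b + (n1 + n2) = Module.finrank ℚ K := by
    rw [← hcard, Nat.card_eq_fintype_card, ca, cb, hn1, hn2, ← Finset.card_univ,
      Finset.card_filter, Finset.card_filter, Finset.card_filter, Finset.card_filter,
      ← Finset.sum_add_distrib, ← Finset.sum_add_distrib, ← Finset.sum_add_distrib,
      Finset.card_eq_sum_ones]
    refine Finset.sum_congr rfl fun τ _ => ?_
    rcases hcase τ with ⟨h1, h2, _⟩ | ⟨h1, h2⟩ | ⟨h1, h2, _⟩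
    · simp [hP1, hP2d, h1, h2]
    · simp [hP1, hP2d, h1, h2]
    · by_cases h3 : g (m τ y) = ω * g (m τ z)
      · simp [hP1, hP2d, h1, h2, h3]
      · simp [hP1, hP2d, h1, h2, h3]
  set c : L := ∏ τ : K →+* N, g (m τ z) with hc
  have hc0 : c ≠ 0 := Finset.prod_ne_zero_iff.2 fun τ _ => hz τ
  have hBL : B.map (Int.castRingHom L) =
      C c * ((1 + X) ^ a * ((1 + C ω * X) ^ n1 * (1 + C (ω ^ 2) * X) ^ n2)) := by
    have e1 : B.map (Int.castRingHom L) = (B.map (Int.castRingHom (𝓞 N))).map g := by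
      rw [Polynomial.map_map]
      congr 1
      exact Subsingleton.elim _ _
    rw [e1, hB, nrmP, Polynomial.map_prod]
    have e2 : ∀ τ : K →+* N, (Polynomial.C (RingOfIntegers.mapRingHom τ z) +
        X * Polynomial.C (RingOfIntegers.mapRingHom τ (-y))).map g =
        C (g (m τ z)) * ((if m τ x ∈ Q then 1 + X else 1) *
          ((if P1 τ then 1 + C ω * X else 1) * (if P2 τ then 1 + C (ω ^ 2) * X else 1))) := by
      intro τ
      rw [Polynomial.map_add, Polynomial.map_mul, Polynomial.map_C, Polynomial.map_C,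
        Polynomial.map_X]
      change C (g (m τ z)) + X * C (g (m τ (-y))) = _
      rw [map_neg, map_neg, hneg]
      rcases hcase τ with ⟨h1, h2, h3⟩ | ⟨h1, h2⟩ | ⟨h1, h2, _⟩
      · rw [if_pos h1, if_neg (fun h : P1 τ => h.1 h1), if_neg (fun h : P2 τ => h.1 h1), h3]
        ring
      · rw [if_neg h1, if_neg (fun h : P1 τ => h.2.1 h2), if_neg (fun h : P2 τ => h.2.1 h2),
          (hg _).2 h2]
        simp
      · by_cases h3 : g (m τ y) = ω * g (m τ z)
        · rw [if_neg h1, if_pos (⟨h1, h2, h3⟩ : P1 τ), if_neg (fun h : P2 τ => h.2.2 h3), h3,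
            C_mul]
          ring
        · have h4 := (hω1 τ h1 h2).resolve_left h3
          rw [if_neg h1, if_neg (fun h : P1 τ => h3 h.2.2), if_pos (⟨h1, h2, h3⟩ : P2 τ), h4,
            C_mul]
          ring
    rw [Finset.prod_congr rfl fun τ _ => e2 τ, Finset.prod_mul_distrib, Finset.prod_mul_distrib,
      Finset.prod_mul_distrib, Finset.prod_ite, Finset.prod_ite, Finset.prod_ite,
      Finset.prod_const, Finset.prod_const, Finset.prod_const, Finset.prod_const,
      Finset.prod_const, Finset.prod_const, one_pow, one_pow, one_pow, mul_one, mul_one, mul_one,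
      ← ca, ← hn1, ← hn2, hc, map_prod]
  have hFr : B.map (Int.castRingHom L) =
      C (c ^ 2) * ((1 + X) ^ a * ((1 + C (ω ^ 2) * X) ^ n1 * (1 + C ((ω ^ 2) ^ 2) * X) ^ n2)) := by
    have e1 : B.map (Int.castRingHom L) =
        (B.map (Int.castRingHom L)).map (frobenius L 2) := by
      rw [Polynomial.map_map]
      congr 1
      exact Subsingleton.elim _ _
    rw [e1, hBL]
    simp only [Polynomial.map_mul, Polynomial.map_pow, Polynomial.map_add, Polynomial.map_one,
      Polynomial.map_X, Polynomial.map_C, frobenius_def]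
  have hXa : ((1 + X : Polynomial L) ^ a) ≠ 0 := by
    refine pow_ne_zero _ ?_
    intro h
    have := congrArg (fun q => Polynomial.coeff q 0) h
    simp at this
  have hres : n1 = n2 ∧ c = c ^ 2 := by
    rcases hω2 with hω | hno
    · have h4 : (ω ^ 2) ^ 2 = ω := by
        have := omega_cube hω
        linear_combination ω * this
      rw [h4] at hFr
      have h5 : (1 + X : Polynomial L) ^ a *
          (C c * ((1 + C ω * X) ^ n1 * (1 + C (ω ^ 2) * X) ^ n2)) = (1 + X) ^ a *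
          (C (c ^ 2) * ((1 + C (ω ^ 2) * X) ^ n1 * (1 + C ω * X) ^ n2)) := by
        linear_combination hFr - hBL
      exact compare h20 hω hc0 (pow_ne_zero _ hc0) (mul_left_cancel₀ hXa h5)
    · have z1 : n1 = 0 := by
        rw [hn1, Finset.card_eq_zero, Finset.filter_eq_empty_iff]
        intro τ _ h
        exact hno τ ⟨h.1, h.2.1⟩
      have z2 : n2 = 0 := by
        rw [hn2, Finset.card_eq_zero, Finset.filter_eq_empty_iff]
        intro τ _ h
        exact hno τ ⟨h.1, h.2.1⟩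
      refine ⟨z1.trans z2.symm, ?_⟩
      rw [z1, z2, pow_zero, pow_zero, mul_one, mul_one] at hFr hBL
      have h5 : (1 + X : Polynomial L) ^ a * C c = (1 + X) ^ a * C (c ^ 2) := by
        linear_combination hFr - hBL
      exact C_injective (mul_left_cancel₀ hXa h5)
  obtain ⟨hn, hcc⟩ := hres
  have hc1 : c = 1 := by
    have : c * (c - 1) = 0 := by linear_combination -hcc
    rcases mul_eq_zero.1 this with h | h
    · exact absurd h hc0
    · exact sub_eq_zero.1 h
  have hk : a + b + 2 * n2 = Module.finrank ℚ K := by omega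
  refine ⟨⟨n2, hk⟩, ?_⟩
  have hG : B.map (Int.castRingHom (ZMod 2)) =
      ((1 + X) ^ a * (1 + X + X ^ 2) ^ n2 : Polynomial ℤ).map (Int.castRingHom (ZMod 2)) := by
    refine Pool.Agent.Y809.WQ.map_two (F := L) h20 ?_
    rw [hBL, hc1, hn, ← mul_pow]
    have e3 : ((1 + C ω * X) * (1 + C (ω ^ 2) * X)) ^ n2 =
        ((1 + X + X ^ 2 : Polynomial L)) ^ n2 := by
      rcases hω2 with hω | hno
      · congr 1
        have h3 := omega_cube hω
        have h6 : (1 + C ω * X) * (1 + C (ω ^ 2) * X) =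
            1 + C (ω + ω ^ 2) * X + C (ω ^ 3) * X ^ 2 := by
          simp only [C_add, C_mul, C_pow]
          ring
        have h7 : ω + ω ^ 2 = 1 := by
          have : ω + ω ^ 2 = (ω ^ 2 + ω + 1) - 2 + 1 := by ring
          rw [this, hω, h20]
          ring
        rw [h6, h3, h7, C_1]
        ring
      · have z2 : n2 = 0 := by
          rw [hn2, Finset.card_eq_zero, Finset.filter_eq_empty_iff]
          intro τ _ h
          exact hno τ ⟨h.1, h.2.1⟩
        rw [z2, pow_zero, pow_zero]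
    rw [e3, C_1, one_mul]
    simp
  have hr : (B.reflect (Module.finrank ℚ K)).map (Int.castRingHom (ZMod 2)) =
      Polynomial.reflect (Module.finrank ℚ K) (B.map (Int.castRingHom (ZMod 2))) :=
    (Polynomial.reflect_map _ _ _).symm
  have e3 : ((1 + X) ^ a * (1 + X + X ^ 2) ^ n2 : Polynomial ℤ).map
      (Int.castRingHom (ZMod 2)) = (1 + X) ^ a * (1 + X + X ^ 2) ^ n2 := by simp
  have hfin : (X ^ b * B - B.reflect (Module.finrank ℚ K)).map (Int.castRingHom (ZMod 2)) = 0 := by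
    rw [Polynomial.map_sub, Polynomial.map_mul, Polynomial.map_pow, Polynomial.map_X, hr, hG, e3,
      ← hk, reflect_all, sub_self]
  have hdvd : C (2 : ℤ) ∣ X ^ b * B - B.reflect (Module.finrank ℚ K) := by
    rw [Polynomial.C_dvd_iff_dvd_coeff]
    intro i
    have h1 := congrArg (fun q => Polynomial.coeff q i) hfin
    simp only [Polynomial.coeff_map, Polynomial.coeff_zero] at h1
    have h2 : (((X ^ b * B - B.reflect (Module.finrank ℚ K)).coeff i : ℤ) : ZMod 2) = 0 := h1
    exact_mod_cast (ZMod.intCast_zmod_eq_zero_iff_dvd _ 2).1 h2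
  obtain ⟨R, hR⟩ := hdvd
  refine ⟨R, ?_⟩
  have h2 : (C (2 : ℤ) : Polynomial ℤ) = 2 := by simp
  rw [h2] at hR
  linear_combination hR

end Pool.Agent.Y10.WQ
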